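import Pool.Agent.K1H40.CT.Stm

set_option autoImplicit false

namespace Pool.Agent.K1H11.CT

open Pool.Agent.K1H40.CT

universe u w

/-- final combination -/
theorem pow7_aux {A : Type w} [CommRing A] (X G P Q N : A)
    (h1 : X * G ^ 6 = 0) (h2 : X * G ^ 5 * Q = 0) (h3 : X * G ^ 4 * P ^ 2 = 0)
    (h4 : X * G ^ 3 * P ^ 4 = 0) (h5 : P ^ 5 = 0) (h6 : P ^ 3 * Q = 0) (h7 : P * Q ^ 2 = 0)
    (h8 : Q ^ 3 = 0) (h9 : P * N = 0) (h10 : Q * N = 0) (h11 : N ^ 2 = 0) :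
    X * (G + P + Q + N) ^ 7 = 0 := by
  linear_combination (7*N + 7*Q + 7*P + 1*G)*h1 + (21*Q + 42*P)*h2 + (105*Q + 35*P + 21*G)*h3 + (35*1)*h4 + (21*X*Q^2 + 7*X*P*Q + 1*X*P^2 + 42*X*G*Q + 7*X*G*P + 21*X*G^2)*h5 + (35*X*Q^3 + 35*X*P*Q^2 + 140*X*G*Q^2 + 105*X*G*P*Q + 210*X*G^2*Q + 105*X*G^2*P + 140*X*G^3)*h6 + (7*X*Q^4 + 21*X*P*Q^3 + 42*X*G*Q^3 + 105*X*G*P*Q^2 + 105*X*G^2*Q^2 + 210*X*G^2*P*Q + 140*X*G^3*Q + 210*X*G^3*P + 105*X*G^4)*h7 + (1*X*Q^4 + 7*X*G*Q^3 + 21*X*G^2*Q^2 + 35*X*G^3*Q + 35*X*G^4)*h8 + (42*X*Q^5 + 105*X*P*Q^4 + 140*X*P^2*Q^3 + 105*X*P^3*Q^2 + 42*X*P^4*Q + 7*X*P^5 + 210*X*G*Q^4 + 420*X*G*P*Q^3 + 420*X*G*P^2*Q^2 + 210*X*G*P^3*Q + 42*X*G*P^4 + 420*X*G^2*Q^3 + 630*X*G^2*P*Q^2 + 420*X*G^2*P^2*Q + 105*X*G^2*P^3 + 420*X*G^3*Q^2 + 420*X*G^3*P*Q + 140*X*G^3*P^2 + 210*X*G^4*Q + 105*X*G^4*P + 42*X*G^5)*h9 + (7*X*Q^5 + 42*X*G*Q^4 + 105*X*G^2*Q^3 + 140*X*G^3*Q^2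 + 105*X*G^4*Q + 42*X*G^5)*h10 + (1*X*N^5 + 7*X*Q*N^4 + 21*X*Q^2*N^3 + 35*X*Q^3*N^2 + 35*X*Q^4*N + 21*X*Q^5 + 7*X*P*N^4 + 42*X*P*Q*N^3 + 105*X*P*Q^2*N^2 + 140*X*P*Q^3*N + 105*X*P*Q^4 + 21*X*P^2*N^3 + 105*X*P^2*Q*N^2 + 210*X*P^2*Q^2*N + 210*X*P^2*Q^3 + 35*X*P^3*N^2 + 140*X*P^3*Q*N + 210*X*P^3*Q^2 + 35*X*P^4*N + 105*X*P^4*Q + 21*X*P^5 + 7*X*G*N^4 + 42*X*G*Q*N^3 + 105*X*G*Q^2*N^2 + 140*X*G*Q^3*N + 105*X*G*Q^4 + 42*X*G*P*N^3 + 210*X*G*P*Q*N^2 + 420*X*G*P*Q^2*N + 420*X*G*P*Q^3 + 105*X*G*P^2*N^2 + 420*X*G*P^2*Q*N + 630*X*G*P^2*Q^2 + 140*X*G*P^3*N + 420*X*G*P^3*Q + 105*X*G*P^4 + 21*X*G^2*N^3 + 105*X*G^2*Q*N^2 + 210*X*G^2*Q^2*N + 210*X*G^2*Q^3 + 105*X*G^2*P*N^2 + 420*X*G^2*P*Q*N + 630*X*G^2*P*Q^2 + 210*X*G^2*P^2*N + 630*X*G^2*P^2*Q + 210*X*G^2*P^3 + 35*X*G^3*N^2 + 140*X*G^3*Q*N + 210*X*G^3*Q^2 + 140*X*G^3*P*N + 420*X*G^3*P*Q + 210*X*G^3*P^2 + 35*X*G^4*N + 105*X*G^4*Q + 105*X*G^4*P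 + 21*X*G^5)*h11

/-- from the primitive relations -/
theorem pow7 {A : Type w} [CommRing A] (X G n0 n1 n2 n3 h01 h02 h03 h12 h13 h23 N : A)
    (s0 : n0 * n0 = 0) (s1 : n1 * n1 = 0) (s2 : n2 * n2 = 0) (s3 : n3 * n3 = 0)
    (p0_01 : n0 * h01 = 0) (p1_01 : n1 * h01 = 0) (p0_02 : n0 * h02 = 0) (p2_02 : n2 * h02 = 0)
    (p0_03 : n0 * h03 = 0) (p3_03 : n3 * h03 = 0) (p1_12 : n1 * h12 = 0) (p2_12 : n2 * h12 = 0)
    (p1_13 : n1 * h13 = 0) (p3_13 : n3 * h13 = 0) (p2_23 : n2 * h23 = 0) (p3_23 : n3 * h23 = 0)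
    (r01_01 : h01 * h01 = 0) (r01_02 : h01 * h02 = 0) (r01_03 : h01 * h03 = 0)
    (r01_12 : h01 * h12 = 0) (r01_13 : h01 * h13 = 0) (r02_02 : h02 * h02 = 0)
    (r02_03 : h02 * h03 = 0) (r02_12 : h02 * h12 = 0) (r02_23 : h02 * h23 = 0)
    (r03_03 : h03 * h03 = 0) (r03_13 : h03 * h13 = 0) (r03_23 : h03 * h23 = 0)
    (r12_12 : h12 * h12 = 0) (r12_13 : h12 * h13 = 0) (r12_23 : h12 * h23 = 0)
    (r13_13 : h13 * h13 = 0) (r13_23 : h13 * h23 = 0) (r23_23 : h23 * h23 = 0) (u0 : n0 * N = 0)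
    (u1 : n1 * N = 0) (u2 : n2 * N = 0) (u3 : n3 * N = 0) (w01 : h01 * N = 0) (w02 : h02 * N = 0)
    (w03 : h03 * N = 0) (w12 : h12 * N = 0) (w13 : h13 * N = 0) (w23 : h23 * N = 0)
    (NN : N * N = 0) (g1 : X * G ^ 6 = 0) (gh01 : X * G ^ 5 * h01 = 0)
    (gh02 : X * G ^ 5 * h02 = 0) (gh03 : X * G ^ 5 * h03 = 0) (gh12 : X * G ^ 5 * h12 = 0)
    (gh13 : X * G ^ 5 * h13 = 0) (gh23 : X * G ^ 5 * h23 = 0) (gn01 : X * G ^ 4 * (n0 * n1) = 0)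
    (gn02 : X * G ^ 4 * (n0 * n2) = 0) (gn03 : X * G ^ 4 * (n0 * n3) = 0)
    (gn12 : X * G ^ 4 * (n1 * n2) = 0) (gn13 : X * G ^ 4 * (n1 * n3) = 0)
    (gn23 : X * G ^ 4 * (n2 * n3) = 0) (g4 : X * G ^ 3 * (n0 * n1 * n2 * n3) = 0) :
    X * (G + (n0 + n1 + n2 + n3) + (h01 + h02 + h03 + h12 + h13 + h23) + N) ^ 7 = 0 := by
  have hP2 : (n0 + n1 + n2 + n3) ^ 2 = 2 * (n0 * n1 + n0 * n2 + n0 * n3 + n1 * n2 + n1 * n3 + n2 * n3) := by
    linear_combination s0 + s1 + s2 + s3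
  have hP3 : (n0 + n1 + n2 + n3) ^ 3 = 6 * (n0 * n1 * n2 + n0 * n1 * n3 + n0 * n2 * n3 + n1 * n2 * n3) := by
    linear_combination (n0 + n1 + n2 + n3) * hP2 + 2 * (n1 + n2 + n3) * s0 + 2 * (n0 + n2 + n3) * s1 + 2 * (n0 + n1 + n3) * s2 + 2 * (n0 + n1 + n2) * s3
  have hP4 : (n0 + n1 + n2 + n3) ^ 4 = 24 * (n0 * n1 * n2 * n3) := by
    linear_combination (n0 + n1 + n2 + n3) * hP3 + 6 * (n1 * n2 + n1 * n3 + n2 * n3) * s0 + 6 * (n0 * n2 + n0 * n3 + n2 * n3) * s1 + 6 * (n0 * n1 + n0 * n3 + n1 * n3) * s2 + 6 * (n0 * n1 + n0 * n2 + n1 * n2) * s3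
  have h5 : (n0 + n1 + n2 + n3) ^ 5 = 0 := by
    linear_combination (n0 + n1 + n2 + n3) * hP4 + 24 * (n1 * n2 * n3) * s0 + 24 * (n0 * n2 * n3) * s1 + 24 * (n0 * n1 * n3) * s2 + 24 * (n0 * n1 * n2) * s3
  have h6 : (n0 + n1 + n2 + n3) ^ 3 * (h01 + h02 + h03 + h12 + h13 + h23) = 0 := by
    linear_combination (h01 + h02 + h03 + h12 + h13 + h23) * hP3 + 6 * (n1 * n2) * p0_01 + 6 * (n1 * n2) * p0_02 + 6 * (n1 * n2) * p0_03 + 6 * (n0 * n2) * p1_12 + 6 * (n0 * n2) * p1_13 + 6 * (n0 * n1) * p2_23 + 6 * (n1 * n3) * p0_01 + 6 * (n1 * n3) * p0_02 + 6 * (n1 * n3) * p0_03 + 6 * (n0 * n3) * p1_12 + 6 * (n0 * n3) * p1_13 + 6 * (n0 * n1) * p3_23 + 6 * (n2 * n3) * p0_01 + 6 * (n2 * n3) * p0_02 + 6 * (n2 * n3) * p0_03 + 6 * (n0 * n3) * p2_12 + 6 * (n0 * n2) * p3_13 + 6 * (n0 * n3) * p2_23 + 6 * (n2 * n3) * p1_01 + 6 * (n1 * n3) * p2_02 + 6 * (n1 * n2) * p3_03 + 6 * (n2 * n3) * p1_12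 + 6 * (n2 * n3) * p1_13 + 6 * (n1 * n3) * p2_23
  have hQ2 : (h01 + h02 + h03 + h12 + h13 + h23) ^ 2 = 2 * (h01 * h23 + h02 * h13 + h03 * h12) := by
    linear_combination r01_01 + 2 * r01_02 + 2 * r01_03 + 2 * r01_12 + 2 * r01_13 + r02_02 + 2 * r02_03 + 2 * r02_12 + 2 * r02_23 + r03_03 + 2 * r03_13 + 2 * r03_23 + r12_12 + 2 * r12_13 + 2 * r12_23 + r13_13 + 2 * r13_23 + r23_23
  have h7 : (n0 + n1 + n2 + n3) * (h01 + h02 + h03 + h12 + h13 + h23) ^ 2 = 0 := by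
    linear_combination (n0 + n1 + n2 + n3) * hQ2 + 2 * h23 * p0_01 + 2 * h13 * p0_02 + 2 * h12 * p0_03 + 2 * h23 * p1_01 + 2 * h02 * p1_13 + 2 * h03 * p1_12 + 2 * h01 * p2_23 + 2 * h13 * p2_02 + 2 * h03 * p2_12 + 2 * h01 * p3_23 + 2 * h02 * p3_13 + 2 * h12 * p3_03
  have h8 : (h01 + h02 + h03 + h12 + h13 + h23) ^ 3 = 0 := by
    linear_combination (h01 + h02 + h03 + h12 + h13 + h23) * hQ2 + 2 * h23 * r01_01 + 2 * h23 * r01_02 + 2 * h23 * r01_03 + 2 * h23 * r01_12 + 2 * h23 * r01_13 + 2 * h01 * r23_23 + 2 * h13 * r01_02 + 2 * h13 * r02_02 + 2 * h13 * r02_03 + 2 * h13 * r02_12 + 2 * h02 * r13_13 + 2 * h13 * r02_23 + 2 * h12 * r01_03 + 2 * h12 * r02_03 + 2 * h12 * r03_03 + 2 * h03 * r12_12 + 2 * h12 * r03_13 + 2 * h12 * r03_23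
  have h2 : X * G ^ 5 * (h01 + h02 + h03 + h12 + h13 + h23) = 0 := by
    linear_combination gh01 + gh02 + gh03 + gh12 + gh13 + gh23
  have h3 : X * G ^ 4 * (n0 + n1 + n2 + n3) ^ 2 = 0 := by
    linear_combination X * G ^ 4 * hP2 + 2 * gn01 + 2 * gn02 + 2 * gn03 + 2 * gn12 + 2 * gn13 + 2 * gn23
  have h4 : X * G ^ 3 * (n0 + n1 + n2 + n3) ^ 4 = 0 := by
    linear_combination X * G ^ 3 * hP4 + 24 * g4
  have h9 : (n0 + n1 + n2 + n3) * N = 0 := by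
    linear_combination u0 + u1 + u2 + u3
  have h10 : (h01 + h02 + h03 + h12 + h13 + h23) * N = 0 := by
    linear_combination w01 + w02 + w03 + w12 + w13 + w23
  have h11 : N ^ 2 = 0 := by
    linear_combination NN
  exact pow7_aux X G _ _ N g1 h2 h3 h4 h5 h6 h7 h8 h9 h10 h11



section FFl

variable {R : Type u} [CommRing R] {n : ℕ} {L : Type w} [Ring L] [Algebra R L]
  (z : Fin n → Fin n → Fin n → Fin n → R)

theorem FF_add0 (a a' b c d : Fin n → L) :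
    FF z (fun i => a i + a' i) b c d = FF z a b c d + FF z a' b c d := by
  simp only [FF, add_mul, smul_add, Finset.sum_add_distrib]

theorem FF_add1 (a b b' c d : Fin n → L) :
    FF z a (fun i => b i + b' i) c d = FF z a b c d + FF z a b' c d := by
  simp only [FF, add_mul, mul_add, smul_add, Finset.sum_add_distrib]

theorem FF_add2 (a b c c' d : Fin n → L) :
    FF z a b (fun i => c i + c' i) d = FF z a b c d + FF z a b c' d := by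
  simp only [FF, add_mul, mul_add, smul_add, Finset.sum_add_distrib]

theorem FF_add3 (a b c d d' : Fin n → L) :
    FF z a b c (fun i => d i + d' i) = FF z a b c d + FF z a b c d' := by
  simp only [FF, mul_add, smul_add, Finset.sum_add_distrib]

theorem swc01 (hz : Rk6 z) (v : Fin n → R) (a c d : Fin n → L) :
    FF z a (cv L v) c d = FF z (cv L v) a c d := by
  unfold FF
  rw [Finset.sum_comm]
  refine Finset.sum_congr rfl fun i _ => Finset.sum_congr rfl fun j _ =>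
    Finset.sum_congr rfl fun k _ => Finset.sum_congr rfl fun l _ => ?_
  rw [hz.s1 j i k l, cv, ← Algebra.commutes]

theorem swc12 (hz : Rk6 z) (v : Fin n → R) (a b d : Fin n → L) :
    FF z a b (cv L v) d = FF z a (cv L v) b d := by
  unfold FF
  refine Finset.sum_congr rfl fun i _ => ?_
  rw [Finset.sum_comm]
  refine Finset.sum_congr rfl fun j _ =>
    Finset.sum_congr rfl fun k _ => Finset.sum_congr rfl fun l _ => ?_
  rw [hz.s2 i k j l, cv, mul_assoc (a i) (b k), ← Algebra.commutes, ← mul_assoc]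

theorem swc23 (hz : Rk6 z) (v : Fin n → R) (a b c : Fin n → L) :
    FF z a b c (cv L v) = FF z a b (cv L v) c := by
  unfold FF
  refine Finset.sum_congr rfl fun i _ => Finset.sum_congr rfl fun j _ => ?_
  rw [Finset.sum_comm]
  refine Finset.sum_congr rfl fun k _ => Finset.sum_congr rfl fun l _ => ?_
  rw [hz.s3 i j l k, cv, mul_assoc (a i * b j) (c l), ← Algebra.commutes, ← mul_assoc]

theorem pull0 (v : Fin n → R) (x : L) (b c d : Fin n → L) :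
    FF z (fun i => v i • x) b c d = x * FF z (cv L v) b c d := by
  unfold FF
  simp only [Finset.mul_sum]
  refine Finset.sum_congr rfl fun i _ => Finset.sum_congr rfl fun j _ =>
    Finset.sum_congr rfl fun k _ => Finset.sum_congr rfl fun l _ => ?_
  simp only [cv, Algebra.algebraMap_eq_smul_one, smul_mul_assoc, one_mul, mul_smul_comm, mul_assoc]

/-- pull out of slot one; `e` is the sign of exchanging with the entries of slot zero -/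
theorem pull1 (v : Fin n → R) (x : L) (a c d : Fin n → L) (e : ℤ)
    (ha : ∀ i, a i * x = e • (x * a i)) :
    FF z a (fun i => v i • x) c d = e • (x * FF z a (cv L v) c d) := by
  unfold FF
  simp only [Finset.mul_sum, Finset.smul_sum]
  refine Finset.sum_congr rfl fun i _ => Finset.sum_congr rfl fun j _ =>
    Finset.sum_congr rfl fun k _ => Finset.sum_congr rfl fun l _ => ?_
  simp only [cv, Algebra.algebraMap_eq_smul_one, smul_mul_assoc, mul_one, mul_smul_comm, ha]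
  rw [smul_comm e, smul_comm e]
  simp only [mul_assoc]

theorem pull2 (v : Fin n → R) (x : L) (a b d : Fin n → L) (e e' : ℤ)
    (ha : ∀ i, a i * x = e • (x * a i)) (hb : ∀ i, b i * x = e' • (x * b i)) :
    FF z a b (fun i => v i • x) d = (e * e') • (x * FF z a b (cv L v) d) := by
  unfold FF
  simp only [Finset.mul_sum, Finset.smul_sum]
  refine Finset.sum_congr rfl fun i _ => Finset.sum_congr rfl fun j _ =>
    Finset.sum_congr rfl fun k _ => Finset.sum_congr rfl fun l _ => ?_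
  simp only [cv, Algebra.algebraMap_eq_smul_one, smul_mul_assoc, mul_one, mul_smul_comm]
  rw [mul_assoc (a i) (b j) x, hb, mul_smul_comm, ← mul_assoc (a i), ha]
  simp only [smul_mul_assoc, mul_smul]
  rw [smul_comm e' e]
  simp only [smul_comm (_ : R) (_ : ℤ), mul_assoc]

theorem pull3 (v : Fin n → R) (x : L) (a b c : Fin n → L) (e e' e'' : ℤ)
    (ha : ∀ i, a i * x = e • (x * a i)) (hb : ∀ i, b i * x = e' • (x * b i))
    (hc : ∀ i, c i * x = e'' • (x * c i)) :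
    FF z a b c (fun i => v i • x) = (e * e' * e'') • (x * FF z a b c (cv L v)) := by
  unfold FF
  simp only [Finset.mul_sum, Finset.smul_sum]
  refine Finset.sum_congr rfl fun i _ => Finset.sum_congr rfl fun j _ =>
    Finset.sum_congr rfl fun k _ => Finset.sum_congr rfl fun l _ => ?_
  simp only [cv, Algebra.algebraMap_eq_smul_one, mul_one, mul_smul_comm]
  have h1 : a i * b j * c k * x = (e * e' * e'') • (x * (a i * b j * c k)) := by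
    rw [mul_assoc (a i * b j) (c k) x, hc, mul_smul_comm, ← mul_assoc (a i * b j),
      mul_assoc (a i) (b j) x, hb, mul_smul_comm, ← mul_assoc (a i), ha]
    simp only [smul_mul_assoc, mul_smul, mul_assoc]
    rw [smul_comm e'' e', smul_comm e'' e, smul_comm e' e]
  rw [h1]
  simp only [smul_comm (_ : R) (_ : ℤ)]

theorem FF_vvvt (v : Fin n → R) (s : Fin n → L)
    (ho : ∑ i, (∑ a, ∑ b, ∑ d, z a b d i * (v a * v b * v d)) • s i = 0) :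
    FF z (cv L v) (cv L v) (cv L v) s = 0 := by
  rw [← ho]
  unfold FF
  simp only [Finset.sum_smul]
  symm
  rw [Finset.sum_comm]
  refine Finset.sum_congr rfl fun i _ => ?_
  rw [Finset.sum_comm]
  refine Finset.sum_congr rfl fun j _ => ?_
  rw [Finset.sum_comm]
  refine Finset.sum_congr rfl fun k _ => Finset.sum_congr rfl fun l _ => ?_
  simp only [cv, ← map_mul]
  rw [← Algebra.smul_def, smul_smul]

theorem FF_vvvv (v : Fin n → R)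
    (h1 : ∑ a, ∑ b, ∑ c, ∑ d, z a b c d * (v a * v b * v c * v d) = 1) :
    FF z (cv L v) (cv L v) (cv L v) (cv L v) = 1 := by
  have := congrArg (algebraMap R L) h1
  rw [map_one] at this
  rw [← this]
  unfold FF
  simp only [map_sum]
  refine Finset.sum_congr rfl fun i _ => Finset.sum_congr rfl fun j _ =>
    Finset.sum_congr rfl fun k _ => Finset.sum_congr rfl fun l _ => ?_
  simp only [cv, ← map_mul]
  rw [Algebra.smul_def, ← map_mul]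

end FFl

section FFe

variable {R : Type u} [CommRing R] {n : ℕ} {L : Type w} [Ring L] [Algebra R L]
  {z : Fin n → Fin n → Fin n → Fin n → R} {v : Fin n → R} {O : Set L}
  {t : Fin 4 → Fin n → L} {xi : Fin 4 → L}

theorem FF_expand (h : Core z v O t xi) (eta : Fin 4 → L) (he : ∀ c, eta c ∈ O) :
    FF z (fun i => v i • eta 0 + t 0 i) (fun i => v i • eta 1 + t 1 i)
      (fun i => v i • eta 2 + t 2 i) (fun i => v i • eta 3 + t 3 i) =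
    GG z t 0 1 2 3 +
      (eta 0 * TT z v t 1 2 3 + -(eta 1 * TT z v t 0 2 3) + eta 2 * TT z v t 0 1 3 +
        -(eta 3 * TT z v t 0 1 2)) +
      (eta 0 * eta 1 * qq z v t 2 3 + -(eta 0 * eta 2 * qq z v t 1 3) +
        eta 0 * eta 3 * qq z v t 1 2 + eta 1 * eta 2 * qq z v t 0 3 +
        -(eta 1 * eta 3 * qq z v t 0 2) + eta 2 * eta 3 * qq z v t 0 1) +
      eta 0 * eta 1 * eta 2 * eta 3 := by
  have hz := h.rk
  have ho : ∀ (c : Fin 4) (s : Fin 4) (i : Fin n), t c i * eta s = (-1 : ℤ) • (eta s * t c i) := by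
    intro c s i
    rw [h.odd.anti _ (h.ht c i) _ (he s), neg_smul, one_smul]
  have hv : ∀ (s : Fin 4) (i : Fin n), cv L v i * eta s = (1 : ℤ) • (eta s * cv L v i) := by
    intro s i
    rw [one_smul, cv, Algebra.commutes]
  have h3 : ∀ c, FF z (cv L v) (cv L v) (cv L v) (t c) = 0 := fun c => FF_vvvt z v (t c) (h.orth c)
  have e0000 : FF z (t 0) (t 1) (t 2) (t 3) = GG z t 0 1 2 3 := rfl
  have e1000 : FF z (fun i => v i • eta 0) (t 1) (t 2) (t 3) =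
      eta 0 * TT z v t 1 2 3 := by
    rw [pull0 z v (eta 0) (t 1) (t 2) (t 3)]
    simp [TT]
  have e0100 : FF z (t 0) (fun i => v i • eta 1) (t 2) (t 3) =
      -(eta 1 * TT z v t 0 2 3) := by
    rw [pull1 z v (eta 1) (t 0) (t 2) (t 3) (-1) (ho _ _), swc01 z hz v (t 0) (t 2) (t 3)]
    simp [TT]
  have e0010 : FF z (t 0) (t 1) (fun i => v i • eta 2) (t 3) =
      eta 2 * TT z v t 0 1 3 := by
    rw [pull2 z v (eta 2) (t 0) (t 1) (t 3) (-1) (-1) (ho _ _) (ho _ _), swc12 z hz v (t 0) (t 1) (t 3), swc01 z hz v (t 0) (t 1) (t 3)]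
    simp [TT]
  have e0001 : FF z (t 0) (t 1) (t 2) (fun i => v i • eta 3) =
      -(eta 3 * TT z v t 0 1 2) := by
    rw [pull3 z v (eta 3) (t 0) (t 1) (t 2) (-1) (-1) (-1) (ho _ _) (ho _ _) (ho _ _), swc23 z hz v (t 0) (t 1) (t 2), swc12 z hz v (t 0) (t 1) (t 2), swc01 z hz v (t 0) (t 1) (t 2)]
    simp [TT]
  have e1100 : FF z (fun i => v i • eta 0) (fun i => v i • eta 1) (t 2) (t 3) =
      eta 0 * eta 1 * qq z v t 2 3 := by
    rw [pull0 z v (eta 0) (fun i => v i • eta 1) (t 2) (t 3), pull1 z v (eta 1) (cv L v) (t 2) (t 3) (1) (hv _)]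
    simp [qq, mul_assoc]
  have e1010 : FF z (fun i => v i • eta 0) (t 1) (fun i => v i • eta 2) (t 3) =
      -(eta 0 * eta 2 * qq z v t 1 3) := by
    rw [pull0 z v (eta 0) (t 1) (fun i => v i • eta 2) (t 3), pull2 z v (eta 2) (cv L v) (t 1) (t 3) (1) (-1) (hv _) (ho _ _), swc12 z hz v (cv L v) (t 1) (t 3)]
    simp [qq, mul_assoc]
  have e1001 : FF z (fun i => v i • eta 0) (t 1) (t 2) (fun i => v i • eta 3) =
      eta 0 * eta 3 * qq z v t 1 2 := by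
    rw [pull0 z v (eta 0) (t 1) (t 2) (fun i => v i • eta 3), pull3 z v (eta 3) (cv L v) (t 1) (t 2) (1) (-1) (-1) (hv _) (ho _ _) (ho _ _), swc23 z hz v (cv L v) (t 1) (t 2), swc12 z hz v (cv L v) (t 1) (t 2)]
    simp [qq, mul_assoc]
  have e0110 : FF z (t 0) (fun i => v i • eta 1) (fun i => v i • eta 2) (t 3) =
      eta 1 * eta 2 * qq z v t 0 3 := by
    rw [pull1 z v (eta 1) (t 0) (fun i => v i • eta 2) (t 3) (-1) (ho _ _), pull2 z v (eta 2) (t 0) (cv L v) (t 3) (-1) (1) (ho _ _) (hv _), swc01 z hz v (t 0) (cv L v) (t 3), swc12 z hz v (cv L v) (t 0) (t 3)]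
    simp [qq, mul_assoc]
  have e0101 : FF z (t 0) (fun i => v i • eta 1) (t 2) (fun i => v i • eta 3) =
      -(eta 1 * eta 3 * qq z v t 0 2) := by
    rw [pull1 z v (eta 1) (t 0) (t 2) (fun i => v i • eta 3) (-1) (ho _ _), pull3 z v (eta 3) (t 0) (cv L v) (t 2) (-1) (1) (-1) (ho _ _) (hv _) (ho _ _), swc01 z hz v (t 0) (t 2) (cv L v), swc23 z hz v (cv L v) (t 0) (t 2), swc12 z hz v (cv L v) (t 0) (t 2)]
    simp [qq, mul_assoc]
  have e0011 : FF z (t 0) (t 1) (fun i => v i • eta 2) (fun i => v i • eta 3) =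
      eta 2 * eta 3 * qq z v t 0 1 := by
    rw [pull2 z v (eta 2) (t 0) (t 1) (fun i => v i • eta 3) (-1) (-1) (ho _ _) (ho _ _), pull3 z v (eta 3) (t 0) (t 1) (cv L v) (-1) (-1) (1) (ho _ _) (ho _ _) (hv _), swc12 z hz v (t 0) (t 1) (cv L v), swc01 z hz v (t 0) (t 1) (cv L v), swc23 z hz v (cv L v) (t 0) (t 1), swc12 z hz v (cv L v) (t 0) (t 1)]
    simp [qq, mul_assoc]
  have e1110 : FF z (fun i => v i • eta 0) (fun i => v i • eta 1) (fun i => v i • eta 2) (t 3) = 0 := by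
    rw [pull0 z v (eta 0) (fun i => v i • eta 1) (fun i => v i • eta 2) (t 3), pull1 z v (eta 1) (cv L v) (fun i => v i • eta 2) (t 3) (1) (hv _), pull2 z v (eta 2) (cv L v) (cv L v) (t 3) (1) (1) (hv _) (hv _), h3 3]
    simp
  have e1101 : FF z (fun i => v i • eta 0) (fun i => v i • eta 1) (t 2) (fun i => v i • eta 3) = 0 := by
    rw [pull0 z v (eta 0) (fun i => v i • eta 1) (t 2) (fun i => v i • eta 3), pull1 z v (eta 1) (cv L v) (t 2) (fun i => v i • eta 3) (1) (hv _), pull3 z v (eta 3) (cv L v) (cv L v) (t 2) (1) (1) (-1) (hv _) (hv _) (ho _ _), swc23 z hz v (cv L v) (cv L v) (t 2), h3 2]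
    simp
  have e1011 : FF z (fun i => v i • eta 0) (t 1) (fun i => v i • eta 2) (fun i => v i • eta 3) = 0 := by
    rw [pull0 z v (eta 0) (t 1) (fun i => v i • eta 2) (fun i => v i • eta 3), pull2 z v (eta 2) (cv L v) (t 1) (fun i => v i • eta 3) (1) (-1) (hv _) (ho _ _), pull3 z v (eta 3) (cv L v) (t 1) (cv L v) (1) (-1) (1) (hv _) (ho _ _) (hv _), swc12 z hz v (cv L v) (t 1) (cv L v), swc23 z hz v (cv L v) (cv L v) (t 1), h3 1]
    simp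
  have e0111 : FF z (t 0) (fun i => v i • eta 1) (fun i => v i • eta 2) (fun i => v i • eta 3) = 0 := by
    rw [pull1 z v (eta 1) (t 0) (fun i => v i • eta 2) (fun i => v i • eta 3) (-1) (ho _ _), pull2 z v (eta 2) (t 0) (cv L v) (fun i => v i • eta 3) (-1) (1) (ho _ _) (hv _), pull3 z v (eta 3) (t 0) (cv L v) (cv L v) (-1) (1) (1) (ho _ _) (hv _) (hv _), swc01 z hz v (t 0) (cv L v) (cv L v), swc12 z hz v (cv L v) (t 0) (cv L v), swc23 z hz v (cv L v) (cv L v) (t 0), h3 0]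
    simp
  have e1111 : FF z (fun i => v i • eta 0) (fun i => v i • eta 1) (fun i => v i • eta 2) (fun i => v i • eta 3) =
      eta 0 * eta 1 * eta 2 * eta 3 := by
    rw [pull0 z v (eta 0) (fun i => v i • eta 1) (fun i => v i • eta 2) (fun i => v i • eta 3), pull1 z v (eta 1) (cv L v) (fun i => v i • eta 2) (fun i => v i • eta 3) (1) (hv _), pull2 z v (eta 2) (cv L v) (cv L v) (fun i => v i • eta 3) (1) (1) (hv _) (hv _), pull3 z v (eta 3) (cv L v) (cv L v) (cv L v) (1) (1) (1) (hv _) (hv _) (hv _), FF_vvvv z v h.one]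
    simp [mul_assoc]
  rw [FF_add0 z (fun i => v i • eta 0) (t 0)]
  simp only [FF_add1 z _ (fun i => v i • eta 1) (t 1), FF_add2 z _ _ (fun i => v i • eta 2) (t 2),
    FF_add3 z _ _ _ (fun i => v i • eta 3) (t 3)]
  rw [e0000, e1000, e0100, e0010, e0001, e1100, e1010, e1001, e0110, e0101, e0011, e1110, e1101, e1011, e0111, e1111]
  abel

end FFe


section FFf


variable {R : Type u} [CommRing R] {n : ℕ} {L : Type w} [Ring L] [Algebra R L]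
  {z : Fin n → Fin n → Fin n → Fin n → R} {v : Fin n → R} {O : Set L}
  {t : Fin 4 → Fin n → L} {xi : Fin 4 → L}

theorem core_comp (h : Core z v O t xi) (σ : Fin 4 → Fin 4) :
    Core z v O (fun c => t (σ c)) xi :=
  ⟨h.rk, h.one, h.odd, fun _ i => h.ht _ i, h.hx, fun _ => h.orth _⟩

theorem facts_q (hC : S_CORE.{u, w}) [Algebra ℚ R] (h : Core z v O t xi) (H : Gram z v O t xi) :
    (Xi xi * qq z v t 0 1 * GG z t 0 1 2 3 ^ 5 = 0) ∧
    (Xi xi * qq z v t 0 2 * GG z t 0 1 2 3 ^ 5 = 0) ∧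
    (Xi xi * qq z v t 0 3 * GG z t 0 1 2 3 ^ 5 = 0) ∧
    (Xi xi * qq z v t 1 2 * GG z t 0 1 2 3 ^ 5 = 0) ∧
    (Xi xi * qq z v t 1 3 * GG z t 0 1 2 3 ^ 5 = 0) ∧
    (Xi xi * qq z v t 2 3 * GG z t 0 1 2 3 ^ 5 = 0) := by
  have n5 : ∀ x : L, (-x) ^ 5 = -(x ^ 5) := fun x => Odd.neg_pow (by decide) x
  refine ⟨?_, ?_, ?_, ?_, ?_, ?_⟩
  · have hh := (hC R n L z v O (fun c => t ((![0, 1, 2, 3] : Fin 4 → Fin 4) c)) xi (core_comp h _)).1
    change Xi xi * qq z v t 0 1 * GG z t 0 1 2 3 ^ 5 = 0 at hh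
    exact hh
  · have hh := (hC R n L z v O (fun c => t ((![0, 2, 1, 3] : Fin 4 → Fin 4) c)) xi (core_comp h _)).1
    change Xi xi * qq z v t 0 2 * GG z t 0 2 1 3 ^ 5 = 0 at hh
    simpa only [H.G2 0 1 2 3, neg_neg, n5, mul_neg, neg_mul, neg_eq_zero] using hh
  · have hh := (hC R n L z v O (fun c => t ((![0, 3, 2, 1] : Fin 4 → Fin 4) c)) xi (core_comp h _)).1
    change Xi xi * qq z v t 0 3 * GG z t 0 3 2 1 ^ 5 = 0 at hh
    simpa only [H.G2 0 2 3 1, H.G3 0 2 1 3, H.G2 0 1 2 3, neg_neg, n5, mul_neg, neg_mul, neg_eq_zero] using hh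
  · have hh := (hC R n L z v O (fun c => t ((![1, 2, 0, 3] : Fin 4 → Fin 4) c)) xi (core_comp h _)).1
    change Xi xi * qq z v t 1 2 * GG z t 1 2 0 3 ^ 5 = 0 at hh
    simpa only [H.G2 1 0 2 3, H.G1 0 1 2 3, neg_neg, n5, mul_neg, neg_mul, neg_eq_zero] using hh
  · have hh := (hC R n L z v O (fun c => t ((![1, 3, 0, 2] : Fin 4 → Fin 4) c)) xi (core_comp h _)).1
    change Xi xi * qq z v t 1 3 * GG z t 1 3 0 2 ^ 5 = 0 at hh
    simpa only [H.G2 1 0 3 2, H.G1 0 1 3 2, H.G3 0 1 2 3, neg_neg, n5, mul_neg, neg_mul, neg_eq_zero] using hh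
  · have hh := (hC R n L z v O (fun c => t ((![2, 3, 0, 1] : Fin 4 → Fin 4) c)) xi (core_comp h _)).1
    change Xi xi * qq z v t 2 3 * GG z t 2 3 0 1 ^ 5 = 0 at hh
    simpa only [H.G2 2 0 3 1, H.G1 0 2 3 1, H.G3 0 2 1 3, H.G2 0 1 2 3, neg_neg, n5, mul_neg, neg_mul, neg_eq_zero] using hh

theorem facts_T (hC : S_CORE.{u, w}) [Algebra ℚ R] (h : Core z v O t xi) (H : Gram z v O t xi) :
    (Xi xi * GG z t 0 1 2 3 ^ 4 * (TT z v t 1 2 3 * TT z v t 0 2 3) = 0) ∧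
    (Xi xi * GG z t 0 1 2 3 ^ 4 * (TT z v t 1 2 3 * TT z v t 0 1 3) = 0) ∧
    (Xi xi * GG z t 0 1 2 3 ^ 4 * (TT z v t 1 2 3 * TT z v t 0 1 2) = 0) ∧
    (Xi xi * GG z t 0 1 2 3 ^ 4 * (TT z v t 0 2 3 * TT z v t 0 1 3) = 0) ∧
    (Xi xi * GG z t 0 1 2 3 ^ 4 * (TT z v t 0 2 3 * TT z v t 0 1 2) = 0) ∧
    (Xi xi * GG z t 0 1 2 3 ^ 4 * (TT z v t 0 1 3 * TT z v t 0 1 2) = 0) := by
  have n4 : ∀ x : L, (-x) ^ 4 = x ^ 4 := fun x => Even.neg_pow (by decide) x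
  refine ⟨?_, ?_, ?_, ?_, ?_, ?_⟩
  · have hh := (hC R n L z v O (fun c => t ((![2, 3, 1, 0] : Fin 4 → Fin 4) c)) xi (core_comp h _)).2.1
    change Xi xi * GG z t 2 3 1 0 ^ 4 * (TT z v t 2 3 1 * TT z v t 2 3 0) = 0 at hh
    simpa only [H.G2 2 1 3 0, H.G1 1 2 3 0, H.G3 1 2 0 3, H.G2 1 0 2 3, H.G1 0 1 2 3, H.T2 2 1 3, H.T1 1 2 3, H.T2 2 0 3, H.T1 0 2 3, neg_neg, n4, mul_neg, neg_mul, neg_eq_zero] using hh
  · have hh := (hC R n L z v O (fun c => t ((![1, 3, 2, 0] : Fin 4 → Fin 4) c)) xi (core_comp h _)).2.1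
    change Xi xi * GG z t 1 3 2 0 ^ 4 * (TT z v t 1 3 2 * TT z v t 1 3 0) = 0 at hh
    simpa only [H.G2 1 2 3 0, H.G3 1 2 0 3, H.G2 1 0 2 3, H.G1 0 1 2 3, H.T2 1 2 3, H.T2 1 0 3, H.T1 0 1 3, neg_neg, n4, mul_neg, neg_mul, neg_eq_zero] using hh
  · have hh := (hC R n L z v O (fun c => t ((![1, 2, 3, 0] : Fin 4 → Fin 4) c)) xi (core_comp h _)).2.1
    change Xi xi * GG z t 1 2 3 0 ^ 4 * (TT z v t 1 2 3 * TT z v t 1 2 0) = 0 at hh
    simpa only [H.G3 1 2 0 3, H.G2 1 0 2 3, H.G1 0 1 2 3, H.T2 1 0 2, H.T1 0 1 2, neg_neg, n4, mul_neg, neg_mul, neg_eq_zero] using hh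
  · have hh := (hC R n L z v O (fun c => t ((![0, 3, 2, 1] : Fin 4 → Fin 4) c)) xi (core_comp h _)).2.1
    change Xi xi * GG z t 0 3 2 1 ^ 4 * (TT z v t 0 3 2 * TT z v t 0 3 1) = 0 at hh
    simpa only [H.G2 0 2 3 1, H.G3 0 2 1 3, H.G2 0 1 2 3, H.T2 0 2 3, H.T2 0 1 3, neg_neg, n4, mul_neg, neg_mul, neg_eq_zero] using hh
  · have hh := (hC R n L z v O (fun c => t ((![0, 2, 3, 1] : Fin 4 → Fin 4) c)) xi (core_comp h _)).2.1
    change Xi xi * GG z t 0 2 3 1 ^ 4 * (TT z v t 0 2 3 * TT z v t 0 2 1) = 0 at hh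
    simpa only [H.G3 0 2 1 3, H.G2 0 1 2 3, H.T2 0 1 2, neg_neg, n4, mul_neg, neg_mul, neg_eq_zero] using hh
  · have hh := (hC R n L z v O (fun c => t ((![0, 1, 3, 2] : Fin 4 → Fin 4) c)) xi (core_comp h _)).2.1
    change Xi xi * GG z t 0 1 3 2 ^ 4 * (TT z v t 0 1 3 * TT z v t 0 1 2) = 0 at hh
    simpa only [H.G3 0 1 2 3, neg_neg, n4, mul_neg, neg_mul, neg_eq_zero] using hh


theorem mem_xT (h : Core z v O t xi) (x : L) (hx : x ∈ O) (a b c : Fin 4) :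
    x * TT z v t a b c ∈ Subalgebra.center R L := by
  have mc : ∀ x y, x ∈ O → y ∈ O → x * y ∈ Subalgebra.center R L := fun x y hx hy =>
    Subalgebra.mem_center_iff.2 fun b => (h.odd.cen x hx y hy b).symm
  unfold TT FF
  simp only [Finset.mul_sum]
  refine sum_mem fun i _ => sum_mem fun j _ => sum_mem fun k _ => sum_mem fun l _ => ?_
  rw [mul_smul_comm]
  refine Subalgebra.smul_mem _ ?_ _
  have : x * (cv L v i * t a j * t b k * t c l) =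
      algebraMap R L (v i) * ((x * t a j) * (t b k * t c l)) := by
    rw [cv, mul_assoc (algebraMap R L (v i) * t a j), mul_assoc (algebraMap R L (v i)),
      ← mul_assoc x, ← Algebra.commutes (v i) x, mul_assoc (algebraMap R L (v i)), ← mul_assoc x]
  rw [this]
  exact mul_mem (Subalgebra.algebraMap_mem _ _) (mul_mem (mc _ _ hx (h.ht _ _))
    (mc _ _ (h.ht _ _) (h.ht _ _)))

omit [Algebra R L] in
theorem dvd_zero_aux {L : Type w} [Ring L] {x c d : L} (hx : x * x = 0)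
    (hc : ∀ w, c * w = w * c) (h1 : x ∣ c) (h2 : x ∣ d) : c * d = 0 := by
  obtain ⟨w, rfl⟩ := h1
  obtain ⟨w', rfl⟩ := h2
  rw [← mul_assoc, hc x, ← mul_assoc x x w, hx, zero_mul, zero_mul]

theorem gq_aux {L : Type w} [Ring L] {X G e q : L} (hq : ∀ w, q * w = w * q)
    (he : ∀ w, e * w = w * e) (h : X * q * G = 0) : X * G * (e * q) = 0 := by
  rw [he q, ← mul_assoc, mul_assoc X G q, ← hq G, ← mul_assoc, h, zero_mul]

theorem gq_aux_neg {L : Type w} [Ring L] {X G e q : L} (hq : ∀ w, q * w = w * q)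
    (he : ∀ w, e * w = w * e) (h : X * q * G = 0) : X * G * (-(e * q)) = 0 := by
  rw [mul_neg, gq_aux hq he h, neg_zero]

theorem gT_aux {L : Type w} [Ring L] {X x y T S : L} (he : ∀ w, x * y * w = w * (x * y))
    (hT : y * T = -(T * y)) (h : X * (T * S) = 0) : X * (x * T * (y * S)) = 0 := by
  have h1 : x * T * (y * S) = -(x * y * (T * S)) := by
    rw [mul_assoc x T, ← mul_assoc T y S, ← neg_neg (T * y), ← hT]
    simp [mul_assoc]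
  rw [h1, he, mul_neg, ← mul_assoc X, h, zero_mul, neg_zero]

theorem g4_aux {L : Type w} [Ring L] {X x y x' y' T0 T1 T2 T3 : L}
    (he : ∀ w, x * y * w = w * (x * y)) (he' : ∀ w, x' * y' * w = w * (x' * y'))
    (hT : y * T0 = -(T0 * y)) (hT' : y' * T2 = -(T2 * y'))
    (h : X * (T0 * T1 * T2 * T3) = 0) : X * (x * T0 * (y * T1) * (x' * T2) * (y' * T3)) = 0 := by
  have h1 : x * T0 * (y * T1) = -(x * y * (T0 * T1)) := by
    rw [mul_assoc x T0, ← mul_assoc T0 y T1, ← neg_neg (T0 * y), ← hT]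
    simp [mul_assoc]
  have h2 : x' * T2 * (y' * T3) = -(x' * y' * (T2 * T3)) := by
    rw [mul_assoc x' T2, ← mul_assoc T2 y' T3, ← neg_neg (T2 * y'), ← hT']
    simp [mul_assoc]
  have h3 : (x * y * (T0 * T1)) * (x' * y' * (T2 * T3)) =
      T0 * T1 * T2 * T3 * ((x * y) * (x' * y')) := by
    rw [he (T0 * T1), he' (T2 * T3), mul_assoc (T0 * T1) (x * y), ← mul_assoc (x * y) (T2 * T3),
      he (T2 * T3)]
    simp only [mul_assoc]
  rw [mul_assoc (x * T0 * (y * T1)), h1, h2, neg_mul_neg, h3, ← mul_assoc X, h, zero_mul]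

end FFf

/-- `S_POW` from the core facts and the rules. -/
theorem t_POW : S_CORE.{u, w} → S_GRAM.{u, w} → S_POW.{u, w} := by
  intro hC hG R _ _ n L _ _ z v O t xi eta h he
  have H := hG R n L z v O t xi h
  rw [FF_expand h eta he]
  have oc := h.odd.cen
  have oa := h.odd.anti
  have os := h.odd.sq
  have mc : ∀ x y, x ∈ O → y ∈ O → x * y ∈ Subalgebra.center R L := fun x y hx hy =>
    Subalgebra.mem_center_iff.2 fun b => (oc x hx y hy b).symm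
  have mX : Xi xi ∈ Subalgebra.center R L := by
    rw [Xi, mul_assoc]
    exact mul_mem (mc _ _ (h.hx _) (h.hx _)) (mc _ _ (h.hx _) (h.hx _))
  have mG : GG z t 0 1 2 3 ∈ Subalgebra.center R L :=
    Subalgebra.mem_center_iff.2 fun b => (H.cG 0 1 2 3 b).symm
  have mq : ∀ a b, qq z v t a b ∈ Subalgebra.center R L := fun a b =>
    Subalgebra.mem_center_iff.2 fun x => (H.cq a b x).symm
  have mT : ∀ x ∈ O, ∀ a b c, x * TT z v t a b c ∈ Subalgebra.center R L := fun x hx a b c =>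
    mem_xT h x hx a b c
  have mN : eta 0 * eta 1 * eta 2 * eta 3 ∈ Subalgebra.center R L := by
    rw [mul_assoc]
    exact mul_mem (mc _ _ (he _) (he _)) (mc _ _ (he _) (he _))
  obtain ⟨q01, q02, q03, q12, q13, q23⟩ := facts_q hC h H
  obtain ⟨T01, T02, T03, T12, T13, T23⟩ := facts_T hC h H
  obtain ⟨-, -, f6, f4⟩ := hC R n L z v O t xi h
  let X' : Subalgebra.center R L := ⟨Xi xi, mX⟩
  let G' : Subalgebra.center R L := ⟨GG z t 0 1 2 3, mG⟩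
  let n0 : Subalgebra.center R L := ⟨eta 0 * TT z v t 1 2 3, mT _ (he _) _ _ _⟩
  let n1 : Subalgebra.center R L := ⟨-(eta 1 * TT z v t 0 2 3), neg_mem (mT _ (he _) _ _ _)⟩
  let n2 : Subalgebra.center R L := ⟨eta 2 * TT z v t 0 1 3, mT _ (he _) _ _ _⟩
  let n3 : Subalgebra.center R L := ⟨-(eta 3 * TT z v t 0 1 2), neg_mem (mT _ (he _) _ _ _)⟩
  let h01 : Subalgebra.center R L := ⟨eta 0 * eta 1 * qq z v t 2 3, mul_mem (mc _ _ (he _) (he _)) (mq _ _)⟩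
  let h02 : Subalgebra.center R L := ⟨-(eta 0 * eta 2 * qq z v t 1 3), neg_mem (mul_mem (mc _ _ (he _) (he _)) (mq _ _))⟩
  let h03 : Subalgebra.center R L := ⟨eta 0 * eta 3 * qq z v t 1 2, mul_mem (mc _ _ (he _) (he _)) (mq _ _)⟩
  let h12 : Subalgebra.center R L := ⟨eta 1 * eta 2 * qq z v t 0 3, mul_mem (mc _ _ (he _) (he _)) (mq _ _)⟩
  let h13 : Subalgebra.center R L := ⟨-(eta 1 * eta 3 * qq z v t 0 2), neg_mem (mul_mem (mc _ _ (he _) (he _)) (mq _ _))⟩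
  let h23 : Subalgebra.center R L := ⟨eta 2 * eta 3 * qq z v t 0 1, mul_mem (mc _ _ (he _) (he _)) (mq _ _)⟩
  let N' : Subalgebra.center R L := ⟨eta 0 * eta 1 * eta 2 * eta 3, mN⟩
  -- divisibility
  have dv0 : ∀ x y w : L, x ∣ x * y * w := fun x y w => ⟨y * w, mul_assoc _ _ _⟩
  have dv1 : ∀ x ∈ O, ∀ y ∈ O, ∀ w : L, y ∣ x * y * w := fun x hx y hy w =>
    ⟨-(x * w), by rw [oa x hx y hy]; simp [mul_assoc]⟩
  have dn0 : eta 0 ∣ (n0 : L) := Dvd.intro _ rfl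
  have dn1 : eta 1 ∣ (n1 : L) := (dvd_neg).2 (Dvd.intro _ rfl)
  have dn2 : eta 2 ∣ (n2 : L) := Dvd.intro _ rfl
  have dn3 : eta 3 ∣ (n3 : L) := (dvd_neg).2 (Dvd.intro _ rfl)
  have d01_0 : eta 0 ∣ (h01 : L) := dv0 _ _ _
  have d01_1 : eta 1 ∣ (h01 : L) := dv1 _ (he _) _ (he _) _
  have d02_0 : eta 0 ∣ (h02 : L) := dvd_neg.2 (dv0 _ _ _)
  have d02_2 : eta 2 ∣ (h02 : L) := dvd_neg.2 (dv1 _ (he _) _ (he _) _)
  have d03_0 : eta 0 ∣ (h03 : L) := dv0 _ _ _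
  have d03_3 : eta 3 ∣ (h03 : L) := dv1 _ (he _) _ (he _) _
  have d12_1 : eta 1 ∣ (h12 : L) := dv0 _ _ _
  have d12_2 : eta 2 ∣ (h12 : L) := dv1 _ (he _) _ (he _) _
  have d13_1 : eta 1 ∣ (h13 : L) := dvd_neg.2 (dv0 _ _ _)
  have d13_3 : eta 3 ∣ (h13 : L) := dvd_neg.2 (dv1 _ (he _) _ (he _) _)
  have d23_2 : eta 2 ∣ (h23 : L) := dv0 _ _ _
  have d23_3 : eta 3 ∣ (h23 : L) := dv1 _ (he _) _ (he _) _
  have dN0 : eta 0 ∣ (N' : L) := ⟨eta 1 * eta 2 * eta 3, by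
    show eta 0 * eta 1 * eta 2 * eta 3 = _
    simp only [mul_assoc]⟩
  have dN1 : eta 1 ∣ (N' : L) := by
    show eta 1 ∣ eta 0 * eta 1 * eta 2 * eta 3
    rw [mul_assoc (eta 0 * eta 1)]
    exact dv1 _ (he _) _ (he _) _
  have dN2 : eta 2 ∣ (N' : L) := by
    show eta 2 ∣ eta 0 * eta 1 * eta 2 * eta 3
    rw [oc _ (he 0) _ (he 1) (eta 2), mul_assoc]
    exact Dvd.intro _ rfl
  have dN3 : eta 3 ∣ (N' : L) := by
    show eta 3 ∣ eta 0 * eta 1 * eta 2 * eta 3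
    rw [mul_assoc (eta 0 * eta 1), oc _ (he 0) _ (he 1) (eta 2 * eta 3)]
    exact dv1 _ (he _) _ (he _) _
  have K : ∀ (s : Fin 4) (c d : Subalgebra.center R L), eta s ∣ (c : L) → eta s ∣ (d : L) →
      c * d = 0 := fun s c d h1 h2 => Subtype.ext
    (dvd_zero_aux (os _ (he s)) (fun w => ((Subalgebra.mem_center_iff.1 c.2) w).symm) h1 h2)
  have g1 : X' * G' ^ 6 = 0 := Subtype.ext f6
  have gh01 : X' * G' ^ 5 * h01 = 0 := Subtype.ext (by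
    show Xi xi * GG z t 0 1 2 3 ^ 5 * (eta 0 * eta 1 * qq z v t 2 3) = 0
    exact gq_aux (H.cq 2 3) (oc _ (he 0) _ (he 1)) q23)
  have gh02 : X' * G' ^ 5 * h02 = 0 := Subtype.ext (by
    show Xi xi * GG z t 0 1 2 3 ^ 5 * (-(eta 0 * eta 2 * qq z v t 1 3)) = 0
    exact gq_aux_neg (H.cq 1 3) (oc _ (he 0) _ (he 2)) q13)
  have gh03 : X' * G' ^ 5 * h03 = 0 := Subtype.ext (by
    show Xi xi * GG z t 0 1 2 3 ^ 5 * (eta 0 * eta 3 * qq z v t 1 2) = 0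
    exact gq_aux (H.cq 1 2) (oc _ (he 0) _ (he 3)) q12)
  have gh12 : X' * G' ^ 5 * h12 = 0 := Subtype.ext (by
    show Xi xi * GG z t 0 1 2 3 ^ 5 * (eta 1 * eta 2 * qq z v t 0 3) = 0
    exact gq_aux (H.cq 0 3) (oc _ (he 1) _ (he 2)) q03)
  have gh13 : X' * G' ^ 5 * h13 = 0 := Subtype.ext (by
    show Xi xi * GG z t 0 1 2 3 ^ 5 * (-(eta 1 * eta 3 * qq z v t 0 2)) = 0
    exact gq_aux_neg (H.cq 0 2) (oc _ (he 1) _ (he 3)) q02)
  have gh23 : X' * G' ^ 5 * h23 = 0 := Subtype.ext (by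
    show Xi xi * GG z t 0 1 2 3 ^ 5 * (eta 2 * eta 3 * qq z v t 0 1) = 0
    exact gq_aux (H.cq 0 1) (oc _ (he 2) _ (he 3)) q01)
  have gn01 : X' * G' ^ 4 * (n0 * n1) = 0 := Subtype.ext (by
    show Xi xi * GG z t 0 1 2 3 ^ 4 * ((eta 0 * TT z v t 1 2 3) * -(eta 1 * TT z v t 0 2 3)) = 0
    try simp only [neg_mul, mul_neg, neg_neg, neg_eq_zero]
    exact gT_aux (oc _ (he 0) _ (he 1)) (H.aT 1 2 3 _ (he 1)) T01)
  have gn02 : X' * G' ^ 4 * (n0 * n2) = 0 := Subtype.ext (by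
    show Xi xi * GG z t 0 1 2 3 ^ 4 * ((eta 0 * TT z v t 1 2 3) * (eta 2 * TT z v t 0 1 3)) = 0
    try simp only [neg_mul, mul_neg, neg_neg, neg_eq_zero]
    exact gT_aux (oc _ (he 0) _ (he 2)) (H.aT 1 2 3 _ (he 2)) T02)
  have gn03 : X' * G' ^ 4 * (n0 * n3) = 0 := Subtype.ext (by
    show Xi xi * GG z t 0 1 2 3 ^ 4 * ((eta 0 * TT z v t 1 2 3) * -(eta 3 * TT z v t 0 1 2)) = 0
    try simp only [neg_mul, mul_neg, neg_neg, neg_eq_zero]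
    exact gT_aux (oc _ (he 0) _ (he 3)) (H.aT 1 2 3 _ (he 3)) T03)
  have gn12 : X' * G' ^ 4 * (n1 * n2) = 0 := Subtype.ext (by
    show Xi xi * GG z t 0 1 2 3 ^ 4 * (-(eta 1 * TT z v t 0 2 3) * (eta 2 * TT z v t 0 1 3)) = 0
    try simp only [neg_mul, mul_neg, neg_neg, neg_eq_zero]
    exact gT_aux (oc _ (he 1) _ (he 2)) (H.aT 0 2 3 _ (he 2)) T12)
  have gn13 : X' * G' ^ 4 * (n1 * n3) = 0 := Subtype.ext (by
    show Xi xi * GG z t 0 1 2 3 ^ 4 * (-(eta 1 * TT z v t 0 2 3) * -(eta 3 * TT z v t 0 1 2)) = 0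
    try simp only [neg_mul, mul_neg, neg_neg, neg_eq_zero]
    exact gT_aux (oc _ (he 1) _ (he 3)) (H.aT 0 2 3 _ (he 3)) T13)
  have gn23 : X' * G' ^ 4 * (n2 * n3) = 0 := Subtype.ext (by
    show Xi xi * GG z t 0 1 2 3 ^ 4 * ((eta 2 * TT z v t 0 1 3) * -(eta 3 * TT z v t 0 1 2)) = 0
    try simp only [neg_mul, mul_neg, neg_neg, neg_eq_zero]
    exact gT_aux (oc _ (he 2) _ (he 3)) (H.aT 0 1 3 _ (he 3)) T23)
  have g4 : X' * G' ^ 3 * (n0 * n1 * n2 * n3) = 0 := Subtype.ext (by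
    show Xi xi * GG z t 0 1 2 3 ^ 3 * ((eta 0 * TT z v t 1 2 3) * -(eta 1 * TT z v t 0 2 3) * (eta 2 * TT z v t 0 1 3) *
      -(eta 3 * TT z v t 0 1 2)) = 0
    simp only [neg_mul, mul_neg, neg_neg]
    exact g4_aux (oc _ (he 0) _ (he 1)) (oc _ (he 2) _ (he 3)) (H.aT 1 2 3 _ (he 1)) (H.aT 0 1 3 _ (he 3)) f4)
  exact congrArg Subtype.val (pow7 X' G' n0 n1 n2 n3 h01 h02 h03 h12 h13 h23 N'
    (K 0 _ _ dn0 dn0) (K 1 _ _ dn1 dn1) (K 2 _ _ dn2 dn2) (K 3 _ _ dn3 dn3) (K 0 _ _ dn0 d01_0)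
    (K 1 _ _ dn1 d01_1) (K 0 _ _ dn0 d02_0) (K 2 _ _ dn2 d02_2) (K 0 _ _ dn0 d03_0)
    (K 3 _ _ dn3 d03_3) (K 1 _ _ dn1 d12_1) (K 2 _ _ dn2 d12_2) (K 1 _ _ dn1 d13_1)
    (K 3 _ _ dn3 d13_3) (K 2 _ _ dn2 d23_2) (K 3 _ _ dn3 d23_3) (K 0 _ _ d01_0 d01_0)
    (K 0 _ _ d01_0 d02_0) (K 0 _ _ d01_0 d03_0) (K 1 _ _ d01_1 d12_1) (K 1 _ _ d01_1 d13_1)
    (K 0 _ _ d02_0 d02_0) (K 0 _ _ d02_0 d03_0) (K 2 _ _ d02_2 d12_2) (K 2 _ _ d02_2 d23_2)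
    (K 0 _ _ d03_0 d03_0) (K 3 _ _ d03_3 d13_3) (K 3 _ _ d03_3 d23_3) (K 1 _ _ d12_1 d12_1)
    (K 1 _ _ d12_1 d13_1) (K 2 _ _ d12_2 d23_2) (K 1 _ _ d13_1 d13_1) (K 3 _ _ d13_3 d23_3)
    (K 2 _ _ d23_2 d23_2) (K 0 _ _ dn0 dN0) (K 1 _ _ dn1 dN1) (K 2 _ _ dn2 dN2) (K 3 _ _ dn3 dN3)
    (K 0 _ _ d01_0 dN0) (K 0 _ _ d02_0 dN0) (K 0 _ _ d03_0 dN0) (K 1 _ _ d12_1 dN1)
    (K 1 _ _ d13_1 dN1) (K 2 _ _ d23_2 dN2) (K 0 _ _ dN0 dN0) g1 gh01 gh02 gh03 gh12 gh13 gh23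
    gn01 gn02 gn03 gn12 gn13 gn23 g4)

end Pool.Agent.K1H11.CT
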